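import Mathlib
import Pool.Agent.H55.Tpc3

/-! Under CH: a totally paracompact Tychonoff space with a dense Hurewicz subspace, not Menger. -/

namespace Pool.Agent.Results.MP_78ccb7_gt.CHCounter

open Set Filter TopologicalSpace

/-- every open base contains a locally finite cover -/
def TotallyParacompact (X : Type) [TopologicalSpace X] : Prop :=
  ∀ B : Set (Set X), IsTopologicalBasis B →
    ∃ F ⊆ B, LocallyFinite (fun U : F => (U : Set X)) ∧ ⋃₀ F = univ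

/-- the Menger property -/
def Menger (X : Type) [TopologicalSpace X] : Prop :=
  ∀ U : ℕ → Set (Set X), (∀ n, (∀ O ∈ U n, IsOpen O) ∧ ⋃₀ U n = univ) →
    ∃ V : ℕ → Set (Set X), (∀ n, V n ⊆ U n ∧ (V n).Finite) ∧ ⋃ n, ⋃₀ V n = univ

/-- the Hurewicz property -/
def Hurewicz (X : Type) [TopologicalSpace X] : Prop :=
  ∀ U : ℕ → Set (Set X), (∀ n, (∀ O ∈ U n, IsOpen O) ∧ ⋃₀ U n = univ) →
    ∃ V : ℕ → Set (Set X), (∀ n, V n ⊆ U n ∧ (V n).Finite) ∧ ∀ y, ∀ᶠ n in atTop, y ∈ ⋃₀ V n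

open Pool.Agent.H55.Tpc PiNat

theorem hur (X : Set S) : Hurewicz (range (b : Q → Z X)) := fun U hU => by
  have h : ∀ (n : ℕ) (q : Q), ∃ O ∈ U n, ∃ C : Set S, C.Countable ∧
      ∀ y : range (b : Q → Z X), y.1 ∈ N q C → y ∈ O := fun n q => by
    obtain ⟨O, h1, h2⟩ := (hU n).2.ge (mem_univ ⟨b q, q, rfl⟩)
    obtain ⟨O', k1, rfl⟩ := isOpen_induced_iff.1 ((hU n).1 O h1)
    obtain ⟨C, c1, c2⟩ := k1.2 q h2
    exact ⟨_, h1, C, c1, fun y hy => c2 hy⟩
  choose O o1 C c1 c2 using h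
  obtain ⟨T, t1, t2⟩ := lind (X := X) (fun q => ⋃ n, C n q) fun q => countable_iUnion fun n => c1 n q
  obtain ⟨e, he⟩ := countable_iff_exists_subset_range.1 t1
  refine ⟨fun n => (fun i => O n (e i)) '' Iic n, fun n => ⟨?_, (finite_Iic n).image _⟩, ?_⟩
  · rintro _ ⟨i, -, rfl⟩
    exact o1 _ _
  · rintro ⟨_, q', rfl⟩
    obtain ⟨q, k1, k2⟩ := t2 q'
    obtain ⟨i, rfl⟩ := he k1
    filter_upwards [eventually_ge_atTop i] with n hn
    exact ⟨_, ⟨i, hn, rfl⟩, c2 n _ _ (N_mono _ (subset_iUnion (fun n => C n (e i)) n) k2)⟩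

theorem notM {X : Set S} (h1 : H1 X) : ¬ Menger (Z X) := fun h => by
  obtain ⟨V', h2, h3⟩ := h (fun n => (fun k => {p | ∀ x, p = a x → x.1 n ≤ k}) '' univ) fun n => by
    refine ⟨?_, eq_univ_of_forall fun p => ?_⟩
    · rintro _ ⟨k, -, rfl⟩
      refine ⟨fun x hx => ⟨n + 1, fun _ => univ, ∅, ok_univ, ?_, ?_⟩,
        fun q _ => ⟨∅, countable_empty, ?_⟩⟩
      · rw [← cyl_eq]; exact on_res x _
      · rintro _ hp y rfl
        have := on_cons (k := x.1 n) (v := res x.1 n) hp.1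
        rw [res_length] at this
        rw [this]
        exact hx x rfl
      · rintro _ hp y rfl
        exact (not_N hp).elim
    · rcases cas p with ⟨x, rfl⟩ | ⟨q, rfl⟩
      · exact ⟨_, ⟨x.1 n, trivial, rfl⟩, fun y hy => by rw [a_inj hy]⟩
      · exact ⟨_, ⟨0, trivial, rfl⟩, fun y hy => (ab _ _ hy.symm).elim⟩
  choose T _ t2 t3 using fun n => (h2 n).2.exists_subset_finite_image_eq (h2 n).1
  choose g hg using fun n => (t2 n).bddAbove
  obtain ⟨x, hx⟩ := h1 [] (fun v => Ioi (g v.length)) fun v => hyperfilter_le_cofinite (by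
    rw [Nat.cofinite_eq_atTop]; exact Ioi_mem_atTop _)
  obtain ⟨n, O, k1, k2⟩ := mem_iUnion.1 (h3.ge (mem_univ (a x)))
  rw [← t3] at k1
  obtain ⟨k, k3, rfl⟩ := k1
  have := (mem_V.1 hx).2 n (Nat.zero_le _)
  simp only [res_length, mem_Ioi] at this
  exact absurd ((k2 x rfl).trans (hg n k3)) (not_le.2 this)

theorem result (CH : (2 : Cardinal.{0}) ^ Cardinal.aleph0 = Cardinal.aleph 1) :
    ∃ (X : Type) (_ : TopologicalSpace X), T35Space X ∧ TotallyParacompact X ∧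
      (∃ Y : Set X, Dense Y ∧ Hurewicz Y) ∧ ¬ Menger X := by
  obtain ⟨X, h1, h2⟩ := exX CH
  exact ⟨Z X, inferInstance, t35, fun B hB => tp h1 h2 hB, ⟨_, dense_b, hur X⟩, notM h1⟩

end Pool.Agent.Results.MP_78ccb7_gt.CHCounter
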